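import Mathlib

set_option autoImplicit false

namespace Pool.Agent.Results.MP_fef6c2_gt.ClosedExterior

open Complex Topology

/-- A subset `X` of the plane is injectively rigid if every continuous injection of `X` into the plane
is a homeomorphism of `X` onto its image. -/
def InjectivelyRigid (X : Set (EuclideanSpace ℝ (Fin 2))) : Prop :=
  ∀ f : X → EuclideanSpace ℝ (Fin 2), Continuous f → Function.Injective f → IsEmbedding f

/-- The closed exterior of the unit disc in the complex plane. -/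
abbrev Ext : Type := {z : ℂ // 1 ≤ ‖z‖}

theorem exists_log {E : Type*} [NormedAddCommGroup E] [NormedSpace ℝ E] (g : E → ℂ)
    (hg : Continuous g) (h0 : ∀ x, g x ≠ 0) :
    ∃ L : E → ℂ, Continuous L ∧ ∀ x, Complex.exp (L x) = g x := by
  have h := Complex.isCoveringMapOn_exp.existsUnique_continuousMap_lifts (A := E)
    (⟨g, hg⟩ : C(E, ℂ)) (a₀ := 0) (e₀ := Complex.log (g 0)) (Complex.exp_log (h0 0))
    (fun a => by simpa using h0 a)
  obtain ⟨F, ⟨_, hF⟩, _⟩ := h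
  refine ⟨F, F.continuous, fun x => ?_⟩
  have := congrFun hF x
  simpa using this

/-- A continuous function on a preconnected space all of whose exponentials agree is constant. -/
theorem const_of_exp_eq {E : Type*} [TopologicalSpace E] [PreconnectedSpace E] (D : E → ℂ)
    (hD : Continuous D) (c : ℂ) (h : ∀ x, Complex.exp (D x) = c) (x y : E) : D x = D y := by
  have hsub : Set.range D ⊆ Set.range (fun n : ℤ => D x + n * (2 * Real.pi * I)) := by
    rintro _ ⟨z, rfl⟩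
    have := (h z).trans (h x).symm
    rw [Complex.exp_eq_exp_iff_exists_int] at this
    obtain ⟨n, hn⟩ := this
    exact ⟨n, hn.symm⟩
  have hc : (Set.range D).Countable := (Set.countable_range _).mono hsub
  exact hc.isTotallyDisconnected (Set.range D) subset_rfl (isPreconnected_range hD) ⟨x, rfl⟩ ⟨y, rfl⟩

/-- The point of the exterior with modulus `1 + |s|` and argument `θ`. -/
noncomputable def pt (s θ : ℝ) : Ext :=
  ⟨((1 + |s| : ℝ) : ℂ) * Complex.exp (θ * I), by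
    rw [norm_mul, Complex.norm_exp_ofReal_mul_I, mul_one, Complex.norm_real, Real.norm_eq_abs,
      abs_of_pos (by positivity)]
    linarith [abs_nonneg s]⟩

theorem norm_pt (s θ : ℝ) : ‖(pt s θ : ℂ)‖ = 1 + |s| := by
  simp only [pt]
  rw [norm_mul, Complex.norm_exp_ofReal_mul_I, mul_one, Complex.norm_real, Real.norm_eq_abs,
      abs_of_pos (by positivity)]

theorem continuous_pt {E : Type*} [TopologicalSpace E] (a b : E → ℝ) (ha : Continuous a)
    (hb : Continuous b) : Continuous (fun x => pt (a x) (b x)) := by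
  unfold pt
  fun_prop

theorem pt_periodic (s θ : ℝ) : pt s (θ + 2 * Real.pi) = pt s θ := by
  apply Subtype.ext
  simp only [pt]
  congr 1
  push_cast
  rw [add_mul, Complex.exp_add, Complex.exp_two_pi_mul_I, mul_one]

theorem pt_pi_ne (s θ : ℝ) : pt s (θ + Real.pi) ≠ pt s θ := by
  intro h
  have h1 := congrArg Subtype.val h
  have e : Complex.exp (((θ + Real.pi : ℝ) : ℂ) * I) = - Complex.exp (θ * I) := by
    push_cast
    rw [add_mul, Complex.exp_add, Complex.exp_pi_mul_I]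
    ring
  simp only [pt] at h1
  rw [e] at h1
  push_cast at h1
  have h2 : ((1 + |s| : ℝ) : ℂ) ≠ 0 := by
    have : (0 : ℝ) < 1 + |s| := by positivity
    exact_mod_cast this.ne'
  push_cast at h2
  have h3 : Complex.exp (θ * I) ≠ 0 := Complex.exp_ne_zero _
  have h4 : 2 * ((1 + ((|s| : ℝ) : ℂ)) * Complex.exp (θ * I)) = 0 := by
    linear_combination -h1
  simp [h2, h3] at h4

theorem exists_pt (x : Ext) : ∃ s θ : ℝ, 0 ≤ s ∧ pt s θ = x ∧ ‖(x : ℂ)‖ = 1 + s := by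
  refine ⟨‖(x : ℂ)‖ - 1, Complex.arg x, by linarith [x.2], ?_, by ring⟩
  apply Subtype.ext
  simp only [pt]
  rw [abs_of_nonneg (by linarith [x.2])]
  have : (1 + (‖(x : ℂ)‖ - 1) : ℝ) = ‖(x : ℂ)‖ := by ring
  rw [this]
  exact Complex.norm_mul_exp_arg_mul_I x

/-- The main point: the image of a neighbourhood of infinity stays away from `f x₀`. -/
theorem key (f : Ext → ℂ) (hf : Continuous f) (hinj : Function.Injective f) (x₀ : Ext) :
    ∃ ε > 0, ∀ x : Ext, ‖(x₀ : ℂ)‖ + 1 < ‖(x : ℂ)‖ → ε ≤ ‖f x - f x₀‖ := by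
  obtain ⟨s₀, φ₀, hs₀, hx₀, hn₀⟩ := exists_pt x₀
  -- the first lift
  have hG₀c : Continuous (fun v : ℝ × ℝ × ℝ × ℝ =>
      f (pt (|v.1| + Real.exp v.2.1) v.2.2.1) - f (pt v.1 v.2.2.2)) := by
    refine (hf.comp (continuous_pt _ _ ?_ ?_)).sub (hf.comp (continuous_pt _ _ ?_ ?_)) <;> fun_prop
  have hG₀ : ∀ v : ℝ × ℝ × ℝ × ℝ,
      f (pt (|v.1| + Real.exp v.2.1) v.2.2.1) - f (pt v.1 v.2.2.2) ≠ 0 := by
    intro v hv
    have h1 := hinj (sub_eq_zero.mp hv)
    have h2 := congrArg (fun z : Ext => ‖(z : ℂ)‖) h1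
    simp only [norm_pt] at h2
    have h3 := Real.exp_pos v.2.1
    rw [abs_of_nonneg (by positivity)] at h2
    linarith
  obtain ⟨L₀, hL₀c, hL₀⟩ := exists_log _ hG₀c hG₀
  -- the second lift
  have hG₁c : Continuous (fun v : ℝ × ℝ => f (pt v.1 (v.2 + Real.pi)) - f (pt 0 v.2)) := by
    refine (hf.comp (continuous_pt _ _ ?_ ?_)).sub (hf.comp (continuous_pt _ _ ?_ ?_)) <;> fun_prop
  have hG₁ : ∀ v : ℝ × ℝ, f (pt v.1 (v.2 + Real.pi)) - f (pt 0 v.2) ≠ 0 := by
    intro v hv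
    have h1 := hinj (sub_eq_zero.mp hv)
    have h2 := congrArg (fun z : Ext => ‖(z : ℂ)‖) h1
    simp only [norm_pt, abs_zero] at h2
    have h3 : v.1 = 0 := by
      have : |v.1| = 0 := by linarith
      exact abs_eq_zero.mp this
    rw [h3] at h1
    exact pt_pi_ne _ _ h1
  obtain ⟨L₁, hL₁c, hL₁⟩ := exists_log _ hG₁c hG₁
  -- `κ` is odd
  have hκ : ∃ k : ℤ, ∀ φ : ℝ, L₁ (0, φ + Real.pi) - L₁ (0, φ) = (2 * k + 1) * (Real.pi * I) := by
    have hexp : ∀ φ : ℝ, Complex.exp (L₁ (0, φ + Real.pi) - L₁ (0, φ)) = -1 := by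
      intro φ
      rw [Complex.exp_sub, hL₁, hL₁]
      have h1 : φ + Real.pi + Real.pi = φ + 2 * Real.pi := by ring
      simp only [h1, pt_periodic]
      have h2 := hG₁ (0, φ)
      simp only at h2
      field_simp
      ring
    have hconst := const_of_exp_eq (fun φ : ℝ => L₁ (0, φ + Real.pi) - L₁ (0, φ)) (by fun_prop) (-1) hexp
    have h0 := hexp 0
    have h1 : Complex.exp (L₁ (0, 0 + Real.pi) - L₁ (0, 0)) = Complex.exp (Real.pi * I) := by
      rw [h0, Complex.exp_pi_mul_I]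
    rw [Complex.exp_eq_exp_iff_exists_int] at h1
    obtain ⟨k, hk⟩ := h1
    refine ⟨k, fun φ => ?_⟩
    have := hconst φ 0
    rw [this, hk]
    ring
  obtain ⟨k, hk⟩ := hκ
  have hκ2 : ∀ φ : ℝ, L₁ (0, φ + 2 * Real.pi) - L₁ (0, φ) = (2 * k + 1) * (2 * Real.pi * I) := by
    intro φ
    have h1 := hk φ
    have h2 := hk (φ + Real.pi)
    have h3 : φ + Real.pi + Real.pi = φ + 2 * Real.pi := by ring
    rw [h3] at h2
    linear_combination h1 + h2
  have hκ3 : ∀ b φ : ℝ, L₁ (b, φ + 2 * Real.pi) - L₁ (b, φ) = (2 * k + 1) * (2 * Real.pi * I) := by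
    intro b φ
    have hexp : ∀ v : ℝ × ℝ, Complex.exp (L₁ (v.1, v.2 + 2 * Real.pi) - L₁ (v.1, v.2)) = 1 := by
      intro v
      rw [Complex.exp_sub, hL₁, hL₁]
      have h1 : v.2 + 2 * Real.pi + Real.pi = v.2 + Real.pi + 2 * Real.pi := by ring
      simp only [h1, pt_periodic]
      have h2 := hG₁ (v.1, v.2)
      simp only at h2
      field_simp
    have hconst := const_of_exp_eq (fun v : ℝ × ℝ => L₁ (v.1, v.2 + 2 * Real.pi) - L₁ (v.1, v.2))
      (by fun_prop) 1 hexp (b, φ) (0, φ)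
    simp only at hconst
    rw [hconst, hκ2]
  -- compare the lifts
  have hcomp : ∀ φ : ℝ, L₀ (0, 0, φ + Real.pi, φ) - L₁ (1, φ) = L₀ (0, 0, 0 + Real.pi, 0) - L₁ (1, 0) := by
    intro φ
    have hexp : ∀ φ : ℝ, Complex.exp (L₀ (0, 0, φ + Real.pi, φ) - L₁ (1, φ)) = 1 := by
      intro φ
      rw [Complex.exp_sub, hL₀, hL₁]
      have h2 := hG₁ (1, φ)
      simp only at h2
      simp only [abs_zero, Real.exp_zero, zero_add]
      field_simp
    exact const_of_exp_eq (fun φ : ℝ => L₀ (0, 0, φ + Real.pi, φ) - L₁ (1, φ)) (by fun_prop) 1 hexp φ 0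
  have hdiag : ∀ φ : ℝ, L₀ (0, 0, φ + Real.pi + 2 * Real.pi, φ + 2 * Real.pi) - L₀ (0, 0, φ + Real.pi, φ)
      = (2 * k + 1) * (2 * Real.pi * I) := by
    intro φ
    have h1 := hcomp φ
    have h2 := hcomp (φ + 2 * Real.pi)
    have h3 : φ + 2 * Real.pi + Real.pi = φ + Real.pi + 2 * Real.pi := by ring
    rw [h3] at h2
    have h4 := hκ3 1 φ
    linear_combination h2 - h1 + h4
  -- the two winding numbers
  have hin : ∃ m : ℤ, ∀ s t θ φ : ℝ, L₀ (s, t, θ + 2 * Real.pi, φ) - L₀ (s, t, θ, φ) =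
      m * (2 * Real.pi * I) := by
    have hexp : ∀ v : ℝ × ℝ × ℝ × ℝ, Complex.exp (L₀ (v.1, v.2.1, v.2.2.1 + 2 * Real.pi, v.2.2.2) -
        L₀ (v.1, v.2.1, v.2.2.1, v.2.2.2)) = 1 := by
      intro v
      rw [Complex.exp_sub, hL₀, hL₀]
      simp only [pt_periodic]
      have h2 := hG₀ v
      field_simp
    have hconst := const_of_exp_eq (fun v : ℝ × ℝ × ℝ × ℝ =>
      (L₀ (v.1, v.2.1, v.2.2.1 + 2 * Real.pi, v.2.2.2) -
        L₀ (v.1, v.2.1, v.2.2.1, v.2.2.2))) (by fun_prop) 1 hexp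
    have h0 := hexp (0, 0, 0, 0)
    rw [Complex.exp_eq_one_iff] at h0
    obtain ⟨m, hm⟩ := h0
    refine ⟨m, fun s t θ φ => ?_⟩
    have := hconst (s, t, θ, φ) (0, 0, 0, 0)
    simp only at this hm
    rw [this, hm]
  have hout : ∃ m : ℤ, ∀ s t θ φ : ℝ, L₀ (s, t, θ, φ + 2 * Real.pi) - L₀ (s, t, θ, φ) =
      m * (2 * Real.pi * I) := by
    have hexp : ∀ v : ℝ × ℝ × ℝ × ℝ, Complex.exp (L₀ (v.1, v.2.1, v.2.2.1, v.2.2.2 + 2 * Real.pi) -
        L₀ (v.1, v.2.1, v.2.2.1, v.2.2.2)) = 1 := by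
      intro v
      rw [Complex.exp_sub, hL₀, hL₀]
      simp only [pt_periodic]
      have h2 := hG₀ v
      field_simp
    have hconst := const_of_exp_eq (fun v : ℝ × ℝ × ℝ × ℝ =>
      (L₀ (v.1, v.2.1, v.2.2.1, v.2.2.2 + 2 * Real.pi) -
        L₀ (v.1, v.2.1, v.2.2.1, v.2.2.2))) (by fun_prop) 1 hexp
    have h0 := hexp (0, 0, 0, 0)
    rw [Complex.exp_eq_one_iff] at h0
    obtain ⟨m, hm⟩ := h0
    refine ⟨m, fun s t θ φ => ?_⟩
    have := hconst (s, t, θ, φ) (0, 0, 0, 0)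
    simp only at this hm
    rw [this, hm]
  obtain ⟨m, hm⟩ := hin
  obtain ⟨m', hm'⟩ := hout
  have hpiI : (2 * Real.pi * I : ℂ) ≠ 0 := Complex.two_pi_I_ne_zero
  have hsum : m + m' = 2 * k + 1 := by
    have h1 := hm 0 0 (0 + Real.pi) 0
    have h2 := hm' 0 0 (0 + Real.pi + 2 * Real.pi) 0
    have h3 := hdiag 0
    have h4 : ((m + m' : ℂ)) * (2 * Real.pi * I) = (2 * k + 1) * (2 * Real.pi * I) := by
      linear_combination h3 - h1 - h2
    have h5 := mul_right_cancel₀ hpiI h4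
    exact_mod_cast h5
  -- the circle of radius `‖x₀‖ + 1`
  have hfin : Continuous (fun θ : ℝ => ‖f (pt (s₀ + 1) θ) - f x₀‖) :=
    ((hf.comp (continuous_pt _ _ continuous_const continuous_id)).sub continuous_const).norm
  obtain ⟨θm, _, hθm⟩ := (isCompact_Icc (a := (0 : ℝ)) (b := 2 * Real.pi)).exists_isMinOn
    ⟨0, by constructor <;> positivity⟩ hfin.continuousOn
  have hnorm1 : ∀ θ : ℝ, ‖(pt (s₀ + 1) θ : ℂ)‖ = ‖(x₀ : ℂ)‖ + 1 := by
    intro θ
    rw [norm_pt, abs_of_nonneg (by linarith), hn₀]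
    ring
  have hpos : 0 < ‖f (pt (s₀ + 1) θm) - f x₀‖ := by
    rw [norm_pos_iff]
    intro h
    have h1 := hinj (sub_eq_zero.mp h)
    have h2 := hnorm1 θm
    rw [h1] at h2
    linarith
  have hmin : ∀ θ : ℝ, ‖f (pt (s₀ + 1) θm) - f x₀‖ ≤ ‖f (pt (s₀ + 1) θ) - f x₀‖ := by
    intro θ
    have hper : Function.Periodic (fun θ : ℝ => ‖f (pt (s₀ + 1) θ) - f x₀‖) (2 * Real.pi) := by
      intro θ
      simp only [pt_periodic]
    obtain ⟨y, hy, hyeq⟩ := hper.exists_mem_Ico₀ (by positivity) θ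
    have := hθm ⟨hy.1, hy.2.le⟩
    simp only [Set.mem_ofPred_eq] at this
    rw [hyeq]
    exact this
  refine ⟨‖f (pt (s₀ + 1) θm) - f x₀‖, hpos, fun x hx => ?_⟩
  by_contra hlt
  push Not at hlt
  obtain ⟨s, ψ, hs, hxs, hns⟩ := exists_pt x
  have hss : s₀ + 1 < s := by linarith
  -- the two logarithms along the circle
  have hu : ∀ θ : ℝ, Complex.exp (L₀ (s₀, 0, θ, φ₀)) = f (pt (s₀ + 1) θ) - f x₀ := by
    intro θ
    rw [hL₀]
    simp only [Real.exp_zero, abs_of_nonneg hs₀, hx₀]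
  have hv : ∀ θ : ℝ, Complex.exp (L₀ (s₀ + 1, Real.log (s - s₀ - 1), ψ, θ)) =
      f x - f (pt (s₀ + 1) θ) := by
    intro θ
    rw [hL₀]
    simp only
    rw [Real.exp_log (by linarith), abs_of_nonneg (by linarith : 0 ≤ s₀ + 1)]
    have : s₀ + 1 + (s - s₀ - 1) = s := by ring
    rw [this, hxs]
  have hne : ∀ θ : ℝ, f (pt (s₀ + 1) θ) - f x₀ ≠ 0 := by
    intro θ h
    have := hmin θ
    rw [h, norm_zero] at this
    linarith
  have hη : ∀ θ : ℝ, ‖(f x - f x₀) / (f (pt (s₀ + 1) θ) - f x₀)‖ < 1 := by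
    intro θ
    rw [norm_div, div_lt_one (norm_pos_iff.mpr (hne θ))]
    exact lt_of_lt_of_le hlt (hmin θ)
  have hslit : ∀ θ : ℝ, 1 - (f x - f x₀) / (f (pt (s₀ + 1) θ) - f x₀) ∈ Complex.slitPlane := by
    intro θ
    left
    have h1 := Complex.re_le_norm ((f x - f x₀) / (f (pt (s₀ + 1) θ) - f x₀))
    have h2 := hη θ
    rw [Complex.sub_re, Complex.one_re]
    linarith
  have hcont1 : Continuous (fun θ : ℝ => f (pt (s₀ + 1) θ) - f x₀) :=
    (hf.comp (continuous_pt _ _ continuous_const continuous_id)).sub continuous_const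
  have hcontl : Continuous (fun θ : ℝ =>
      Complex.log (1 - (f x - f x₀) / (f (pt (s₀ + 1) θ) - f x₀))) := by
    refine Continuous.clog ?_ hslit
    exact continuous_const.sub (continuous_const.div hcont1 hne)
  have hexp : ∀ θ : ℝ, Complex.exp (L₀ (s₀ + 1, Real.log (s - s₀ - 1), ψ, θ) - L₀ (s₀, 0, θ, φ₀) -
      Complex.log (1 - (f x - f x₀) / (f (pt (s₀ + 1) θ) - f x₀))) = -1 := by
    intro θ
    have h1 := hne θ
    rw [Complex.exp_sub, Complex.exp_sub, hu, hv,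
      Complex.exp_log (Complex.slitPlane_ne_zero (hslit θ)), div_div,
      div_eq_iff (mul_ne_zero h1 (Complex.slitPlane_ne_zero (hslit θ)))]
    field_simp
    ring
  have hconst := const_of_exp_eq (fun θ : ℝ => L₀ (s₀ + 1, Real.log (s - s₀ - 1), ψ, θ) -
    L₀ (s₀, 0, θ, φ₀) - Complex.log (1 - (f x - f x₀) / (f (pt (s₀ + 1) θ) - f x₀)))
    (by fun_prop) (-1) hexp (0 + 2 * Real.pi) 0
  simp only [pt_periodic] at hconst
  have h1 := hm s₀ 0 0 φ₀
  have h2 := hm' (s₀ + 1) (Real.log (s - s₀ - 1)) ψ 0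
  have h3 : (m : ℂ) * (2 * Real.pi * I) = m' * (2 * Real.pi * I) := by
    linear_combination h2 - h1 - hconst
  have h4 : m = m' := by exact_mod_cast mul_right_cancel₀ hpiI h3
  omega

/-- The closed exterior of the unit disc in the complex plane is injectively rigid. -/
theorem isEmbedding_of_injective (f : Ext → ℂ) (hf : Continuous f) (hinj : Function.Injective f) :
    IsEmbedding f := by
  refine ⟨?_, hinj⟩
  rw [isInducing_iff_nhds]
  intro x₀
  refine le_antisymm (hf.tendsto x₀).le_comap ?_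
  intro U hU
  obtain ⟨V, hVU, hVo, hxV⟩ := mem_nhds_iff.mp hU
  obtain ⟨ε, hε, hfar⟩ := key f hf hinj x₀
  have hK : IsCompact ({x : Ext | ‖(x : ℂ)‖ ≤ ‖(x₀ : ℂ)‖ + 1} \ V) := by
    refine IsCompact.diff ?_ hVo
    have hcl : IsClosed {z : ℂ | 1 ≤ ‖z‖} := isClosed_le continuous_const continuous_norm
    have h1 : IsClosedEmbedding (Subtype.val : Ext → ℂ) := hcl.isClosedEmbedding_subtypeVal
    have h2 : {x : Ext | ‖(x : ℂ)‖ ≤ ‖(x₀ : ℂ)‖ + 1} =
        Subtype.val ⁻¹' (Metric.closedBall (0 : ℂ) (‖(x₀ : ℂ)‖ + 1)) := by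
      ext x
      simp
    rw [h2]
    exact h1.isCompact_preimage (isCompact_closedBall _ _)
  have hfK : IsClosed (f '' ({x : Ext | ‖(x : ℂ)‖ ≤ ‖(x₀ : ℂ)‖ + 1} \ V)) := (hK.image hf).isClosed
  rw [Filter.mem_comap]
  refine ⟨(f '' ({x : Ext | ‖(x : ℂ)‖ ≤ ‖(x₀ : ℂ)‖ + 1} \ V))ᶜ ∩ Metric.ball (f x₀) ε,
    Filter.inter_mem (hfK.isOpen_compl.mem_nhds ?_) (Metric.ball_mem_nhds _ hε), ?_⟩
  · rintro ⟨y, hy, hyx⟩
    rw [hinj hyx] at hy
    exact hy.2 hxV
  · rintro x ⟨hx1, hx2⟩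
    apply hVU
    by_contra hxV'
    rcases le_or_gt ‖(x : ℂ)‖ (‖(x₀ : ℂ)‖ + 1) with h | h
    · exact hx1 ⟨x, ⟨h, hxV'⟩, rfl⟩
    · have h3 := hfar x h
      rw [Metric.mem_ball, dist_eq_norm] at hx2
      linarith

/-- The answer to the question is yes: some locally compact, nonseparating subset of the plane that is
neither compact nor open is injectively rigid. -/
theorem result : ∃ X : Set (EuclideanSpace ℝ (Fin 2)),
    LocallyCompactSpace X ∧ IsConnected Xᶜ ∧ ¬ IsCompact X ∧ ¬ IsOpen X ∧ InjectivelyRigid X := by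
  let e : ℂ ≃ₗᵢ[ℝ] EuclideanSpace ℝ (Fin 2) := Complex.orthonormalBasisOneI.repr
  refine ⟨{x | 1 ≤ ‖x‖}, ?_, ?_, ?_, ?_, ?_⟩
  · have hcl : IsClosed {x : EuclideanSpace ℝ (Fin 2) | 1 ≤ ‖x‖} :=
      isClosed_le continuous_const continuous_norm
    exact hcl.isClosedEmbedding_subtypeVal.locallyCompactSpace
  · have : {x : EuclideanSpace ℝ (Fin 2) | 1 ≤ ‖x‖}ᶜ = Metric.ball 0 1 := by
      ext x
      simp
    rw [this]
    exact ⟨⟨0, by simp⟩, (convex_ball _ _).isPreconnected⟩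
  · intro h
    obtain ⟨R, hR⟩ := h.isBounded.exists_norm_le
    have h1 := hR (e ((|R| + 1 : ℝ) : ℂ)) (by
      simp only [Set.mem_ofPred_eq]
      rw [e.norm_map, Complex.norm_real, Real.norm_eq_abs, abs_of_pos (by positivity)]
      linarith [abs_nonneg R])
    rw [e.norm_map, Complex.norm_real, Real.norm_eq_abs, abs_of_pos (by positivity)] at h1
    linarith [le_abs_self R]
  · intro h
    have hcl : IsClosed {x : EuclideanSpace ℝ (Fin 2) | 1 ≤ ‖x‖} :=
      isClosed_le continuous_const continuous_norm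
    have h1 : IsClopen {x : EuclideanSpace ℝ (Fin 2) | 1 ≤ ‖x‖} := ⟨hcl, h⟩
    rcases isClopen_iff.mp h1 with h2 | h2
    · have h3 : e 1 ∈ {x : EuclideanSpace ℝ (Fin 2) | 1 ≤ ‖x‖} := by
        simp only [Set.mem_ofPred_eq]
        rw [e.norm_map]
        simp
      rw [h2] at h3
      exact h3
    · have h3 : (0 : EuclideanSpace ℝ (Fin 2)) ∈ {x : EuclideanSpace ℝ (Fin 2) | 1 ≤ ‖x‖} := by
        rw [h2]; trivial
      simp only [Set.mem_ofPred_eq, norm_zero] at h3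
      linarith
  · intro f hf hinj
    have hmem : ∀ z : Ext, 1 ≤ ‖e z.1‖ := fun z => by rw [e.norm_map]; exact z.2
    let i : Ext ≃ₜ {x : EuclideanSpace ℝ (Fin 2) | 1 ≤ ‖x‖} :=
      e.toHomeomorph.subtype (fun z => by simp)
    have h1 : IsEmbedding (fun z : Ext => e.symm (f (i z))) :=
      isEmbedding_of_injective _ (e.symm.continuous.comp (hf.comp i.continuous))
        (e.symm.injective.comp (hinj.comp i.injective))
    have h2 : f = fun x => e (e.symm (f (i (i.symm x)))) := by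
      ext x
      simp
    rw [h2]
    exact (e.toHomeomorph.isEmbedding.comp h1).comp i.symm.isEmbedding

end Pool.Agent.Results.MP_fef6c2_gt.ClosedExterior
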